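import Pool.Agent.W716.FV.StmB
import Pool.Agent.H241R3.FV.TDiff
import Pool.Agent.H241R3.FV.TLoc

/-!
# [FV-BC] differentiability of `UU` in a chart
-/

set_option autoImplicit false

open MeasureTheory Metric Set Filter Topology InnerProductGeometry

namespace Pool.Agent.W753.FV.BC

open Pool.Agent.H241R3.FV (Sph ext RChart gnorm)
open Pool.Agent.H241R3.FV.TDiff (clamp clamp_cont clamp_mem clamp_eq clamp_eventually gnorm_le
  gnorm_smul gnorm_nonneg)
open Pool.Agent.W716.FV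

variable {n : ℕ}

variable {U : Set (E n)} {F : E n → E n → ℝ}

lemma cont_uncurry (hx : ∀ x x' : E n, ∀ p, |F x p - F x' p| ≤ ‖x - x'‖)
    {p0 : E n} {ρ K : ℝ} (hρ : 0 < ρ)
    (hK : ∀ x, ∀ y ∈ closedBall p0 ρ, ∀ z ∈ closedBall p0 ρ,
      |F x y - F x z| ≤ ‖x‖ * K * ‖y - z‖) :
    Continuous (Function.uncurry fun (x : E n) (q : E n) => F x (clamp p0 ρ q)) := by
  rw [continuous_iff_continuousAt]
  rintro ⟨x0, q0⟩
  rw [ContinuousAt, tendsto_iff_dist_tendsto_zero]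
  have h3 : Tendsto (fun a : E n × E n => ‖a.1 - x0‖ +
      ‖x0‖ * K * ‖clamp p0 ρ a.2 - clamp p0 ρ q0‖) (𝓝 (x0, q0)) (𝓝 0) := by
    have h3 : Continuous fun a : E n × E n => ‖a.1 - x0‖ +
        ‖x0‖ * K * ‖clamp p0 ρ a.2 - clamp p0 ρ q0‖ :=
      ((continuous_fst.sub continuous_const).norm).add (continuous_const.mul
        (((clamp_cont p0 hρ).comp continuous_snd).sub continuous_const).norm)
    have h4 := h3.tendsto (x0, q0)
    simpa using h4
  refine squeeze_zero (fun _ => dist_nonneg) (fun a => ?_) h3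
  rw [Real.dist_eq]
  show |F a.1 (clamp p0 ρ a.2) - F x0 (clamp p0 ρ q0)| ≤ _
  have e1 := hx a.1 x0 (clamp p0 ρ a.2)
  have e2 := hK x0 (clamp p0 ρ a.2) (clamp_mem p0 hρ _) (clamp p0 ρ q0) (clamp_mem p0 hρ _)
  calc |F a.1 (clamp p0 ρ a.2) - F x0 (clamp p0 ρ q0)|
      = |(F a.1 (clamp p0 ρ a.2) - F x0 (clamp p0 ρ a.2)) +
          (F x0 (clamp p0 ρ a.2) - F x0 (clamp p0 ρ q0))| := by ring_nf
    _ ≤ _ := (abs_add_le _ _).trans (add_le_add e1 e2)

/-- almost every point is a point of differentiability for almost every parameter -/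
lemma ae_diff (hx : ∀ x x' : E n, ∀ p, |F x p - F x' p| ≤ ‖x - x'‖)
    {p0 : E n} {ρ K : ℝ} (hρ : 0 < ρ) (hK0 : 0 ≤ K)
    (hK : ∀ x, ∀ y ∈ closedBall p0 ρ, ∀ z ∈ closedBall p0 ρ,
      |F x y - F x z| ≤ ‖x‖ * K * ‖y - z‖) :
    ∀ᵐ p ∂((volume : Measure (E n)).restrict (ball p0 ρ)),
      ∀ᵐ x ∂(volume : Measure (E n)), DifferentiableAt ℝ (F x) p := by
  have hcont := cont_uncurry hx hρ hK
  have hmeas : MeasurableSet {a : E n × E n |
      DifferentiableAt ℝ (fun q => F a.1 (clamp p0 ρ q)) a.2} :=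
    measurableSet_of_differentiableAt_with_param ℝ hcont
  have key : ∀ᵐ x ∂(volume : Measure (E n)),
      ∀ᵐ p ∂((volume : Measure (E n)).restrict (ball p0 ρ)),
      DifferentiableAt ℝ (fun q => F x (clamp p0 ρ q)) p := by
    refine Eventually.of_forall fun x => ?_
    have hxK : 0 ≤ ‖x‖ * K := mul_nonneg (norm_nonneg _) hK0
    have hL : LipschitzOnWith (Real.toNNReal (‖x‖ * K)) (F x) (ball p0 ρ) := by
      refine LipschitzOnWith.of_dist_le_mul fun y hy z hz => ?_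
      rw [Real.dist_eq, dist_eq_norm, Real.coe_toNNReal _ hxK]
      exact hK x y (ball_subset_closedBall hy) z (ball_subset_closedBall hz)
    have h := hL.ae_differentiableWithinAt (μ := (volume : Measure (E n))) measurableSet_ball
    filter_upwards [h, ae_restrict_mem measurableSet_ball] with p hp hpm
    have h1 : DifferentiableAt ℝ (F x) p := hp.differentiableAt (isOpen_ball.mem_nhds hpm)
    exact (clamp_eventually p0 hρ hpm (F x)).differentiableAt_iff.2 h1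
  have h2 := (Measure.ae_ae_comm (μ := (volume : Measure (E n)))
    (ν := (volume : Measure (E n)).restrict (ball p0 ρ))
    (p := fun x p => DifferentiableAt ℝ (fun q => F x (clamp p0 ρ q)) p) hmeas).1 key
  filter_upwards [h2, ae_restrict_mem measurableSet_ball] with p hp hpm
  filter_upwards [hp] with x hx1
  exact (clamp_eventually p0 hρ hpm (F x)).differentiableAt_iff.1 hx1

lemma ae_diff' (hx : ∀ x x' : E n, ∀ p, |F x p - F x' p| ≤ ‖x - x'‖)
    (hloc : ∀ p ∈ U, ∃ ρ K : ℝ, 0 < ρ ∧ 0 ≤ K ∧ ∀ x, ∀ y ∈ closedBall p ρ,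
      ∀ z ∈ closedBall p ρ, |F x y - F x z| ≤ ‖x‖ * K * ‖y - z‖) :
    ∀ᵐ p ∂(volume : Measure (E n)), p ∈ U → ∀ᵐ x ∂(volume : Measure (E n)),
      DifferentiableAt ℝ (F x) p := by
  rw [ae_iff]
  apply measure_null_of_locally_null
  intro p hp
  have hpU : p ∈ U := by
    by_contra h
    exact hp fun h' => absurd h' h
  obtain ⟨ρ, K, hρ, hK0, hK⟩ := hloc p hpU
  refine ⟨{q | ¬(q ∈ U → ∀ᵐ x ∂(volume : Measure (E n)), DifferentiableAt ℝ (F x) q)} ∩
    ball p ρ, ?_, ?_⟩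
  · exact inter_mem_nhdsWithin _ (ball_mem_nhds p hρ)
  · have h := ae_diff hx hρ hK0 hK
    rw [ae_restrict_iff' measurableSet_ball, ae_iff] at h
    refine measure_mono_null ?_ h
    rintro q ⟨hq1, hq2⟩
    intro hq3
    exact hq1 fun _ => hq3 hq2

/-- the square of the length -/
lemma gnorm_sq {A : Matrix (Fin n) (Fin n) ℝ} (hA : A.PosDef) (v : E n) :
    gnorm A v ^ 2 = ∑ i, ∑ j, v i * A i j * v j := by
  unfold gnorm
  refine Real.sq_sqrt ?_
  have h := hA.posSemidef.dotProduct_mulVec_nonneg (fun i => v i)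
  refine h.trans_eq ?_
  simp only [dotProduct, Matrix.mulVec, Finset.mul_sum, mul_assoc, star_trivial, Pi.star_apply]

/-- bound for the derivative -/
lemma deriv_bound {f : E n → ℝ} {p : E n} (hd : DifferentiableAt ℝ f p) (v : E n)
    {A : Matrix (Fin n) (Fin n) ℝ} {s K : ℝ} (hs : 0 ≤ s) (hK : 0 ≤ K)
    (hb : ∀ ε : ℝ, 0 < ε → ∃ r : ℝ, 0 < r ∧ ∀ y ∈ ball p r, ∃ d : ℝ, 0 ≤ d ∧
      d ≤ gnorm A (y - p) + ε * ‖y - p‖ ∧ |f y - f p| ≤ s * d + K * d ^ 2) :
    |fderiv ℝ f p v| ≤ s * gnorm A v := by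
  have main : ∀ ε : ℝ, 0 < ε → |fderiv ℝ f p v| ≤ s * (gnorm A v + ε * ‖v‖) := by
    intro ε hε
    obtain ⟨r, hr, h⟩ := hb ε hε
    have h1 : HasDerivAt (fun t : ℝ => f (p + t • v)) (fderiv ℝ f p v) 0 :=
      hd.hasFDerivAt.hasLineDerivAt v
    rw [hasDerivAt_iff_tendsto_slope_zero] at h1
    have h2 : Tendsto (fun t : ℝ => |t⁻¹ • (f (p + (0 + t) • v) - f (p + (0 : ℝ) • v))|)
        (𝓝[>] 0) (𝓝 |fderiv ℝ f p v|) :=
      (h1.mono_left (nhdsWithin_mono _ fun t ht => ne_of_gt ht)).abs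
    have hA : 0 ≤ gnorm A v + ε * ‖v‖ :=
      add_nonneg (gnorm_nonneg _ _) (mul_nonneg hε.le (norm_nonneg _))
    have h2' : Tendsto (fun t : ℝ => s * (gnorm A v + ε * ‖v‖) +
        K * t * (gnorm A v + ε * ‖v‖) ^ 2) (𝓝[>] 0) (𝓝 (s * (gnorm A v + ε * ‖v‖))) := by
      have hc : Continuous fun t : ℝ => s * (gnorm A v + ε * ‖v‖) +
        K * t * (gnorm A v + ε * ‖v‖) ^ 2 := by fun_prop
      have := (hc.tendsto 0).mono_left (nhdsWithin_le_nhds (s := Ioi (0 : ℝ)))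
      simpa using this
    refine le_of_tendsto_of_tendsto h2 h2' ?_
    have h3 : ∀ᶠ t : ℝ in 𝓝[>] 0, p + t • v ∈ ball p r := by
      have hc : Continuous fun t : ℝ => p + t • v := by fun_prop
      have : (fun t : ℝ => p + t • v) ⁻¹' (ball p r) ∈ 𝓝 (0 : ℝ) := by
        apply hc.continuousAt.preimage_mem_nhds
        simpa using ball_mem_nhds p hr
      exact nhdsWithin_le_nhds this
    filter_upwards [h3, self_mem_nhdsWithin] with t ht1 ht2
    have ht : (0 : ℝ) < t := ht2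
    rw [zero_add, zero_smul, add_zero, smul_eq_mul, abs_mul, abs_inv, abs_of_pos ht,
      inv_mul_le_iff₀ ht]
    obtain ⟨d, hd0, hd1, hd2⟩ := h (p + t • v) ht1
    rw [add_sub_cancel_left, gnorm_smul, norm_smul, Real.norm_eq_abs, abs_of_pos ht] at hd1
    have hd3 : d ≤ t * (gnorm A v + ε * ‖v‖) := by
      calc d ≤ _ := hd1
        _ = _ := by ring
    refine hd2.trans ?_
    have e1 : s * d ≤ s * (t * (gnorm A v + ε * ‖v‖)) := mul_le_mul_of_nonneg_left hd3 hs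
    have e2 : K * d ^ 2 ≤ K * (t * (gnorm A v + ε * ‖v‖)) ^ 2 :=
      mul_le_mul_of_nonneg_left (pow_le_pow_left₀ hd0 hd3 2) hK
    calc s * d + K * d ^ 2 ≤ s * (t * (gnorm A v + ε * ‖v‖)) +
          K * (t * (gnorm A v + ε * ‖v‖)) ^ 2 := add_le_add e1 e2
      _ = t * (s * (gnorm A v + ε * ‖v‖) + K * t * (gnorm A v + ε * ‖v‖) ^ 2) := by ring
  have h4 : Tendsto (fun ε : ℝ => s * (gnorm A v + ε * ‖v‖)) (𝓝[>] 0) (𝓝 (s * gnorm A v)) := by
    have hc : Continuous fun ε : ℝ => s * (gnorm A v + ε * ‖v‖) := by fun_prop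
    have := (hc.tendsto 0).mono_left (nhdsWithin_le_nhds (s := Ioi (0 : ℝ)))
    simpa using this
  refine ge_of_tendsto h4 ?_
  filter_upwards [self_mem_nhdsWithin] with ε hε
  exact main ε hε

theorem main (hUF : UFacts) : BChart := by
  intro n hn M _ bd hang C
  obtain ⟨hgood, -, hlipq, hle, hsec⟩ := hUF n hn M bd hang
  have hloc := Pool.Agent.H241R3.FV.TLoc.taskLoc n M C
  have hx : ∀ x x' : E n, ∀ p, |UU bd (C.map p) x - UU bd (C.map p) x'| ≤ ‖x - x'‖ := by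
    intro x x' p
    have := (hgood (C.map p)).lip x x'
    rwa [one_mul] at this
  have hloc1 : ∀ p ∈ C.U, ∃ ρ K : ℝ, 0 < ρ ∧ 0 ≤ K ∧ ∀ x, ∀ y ∈ closedBall p ρ,
      ∀ z ∈ closedBall p ρ, |UU bd (C.map y) x - UU bd (C.map z) x| ≤ ‖x‖ * K * ‖y - z‖ := by
    intro p hp
    obtain ⟨r, hr, hrU, h⟩ := hloc p hp 1 one_pos
    obtain ⟨c, hc, hc'⟩ := gnorm_le (C.G p)
    have hsub : closedBall p (r / 2) ⊆ ball p r := closedBall_subset_ball (by linarith)
    refine ⟨r / 2, c + 1, by positivity, by positivity, fun x y hy z hz => ?_⟩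
    have h1 := h y (hsub hy) z (hsub hz)
    have h2 := hc' (y - z)
    have h3 : dist (C.map y) (C.map z) ≤ (c + 1) * ‖y - z‖ := by linarith
    calc |UU bd (C.map y) x - UU bd (C.map z) x| ≤ ‖x‖ * dist (C.map y) (C.map z) :=
          hlipq _ _ _
      _ ≤ ‖x‖ * ((c + 1) * ‖y - z‖) := mul_le_mul_of_nonneg_left h3 (norm_nonneg _)
      _ = _ := by ring
  filter_upwards [ae_diff' (F := fun x p => UU bd (C.map p) x) hx hloc1] with p hp hpU
  have hd := hp hpU
  obtain ⟨ρ, K, hρ, hK0, hK⟩ := hloc1 p hpU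
  have hcont := cont_uncurry (F := fun x p => UU bd (C.map p) x) hx hρ hK
  have hm0 : Measurable fun a : E n × E n =>
      fderiv ℝ (fun q => UU bd (C.map (clamp p ρ q)) a.1) a.2 :=
    measurable_fderiv_with_param ℝ hcont
  have hm1 : Measurable fun x : E n => fderiv ℝ (fun c' => UU bd (C.map c') x) p := by
    have h1 : Measurable fun x : E n => fderiv ℝ (fun q => UU bd (C.map (clamp p ρ q)) x) p :=
      hm0.comp (measurable_id.prodMk measurable_const)
    have h2 : (fun x : E n => fderiv ℝ (fun q => UU bd (C.map (clamp p ρ q)) x) p) =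
        fun x : E n => fderiv ℝ (fun c' => UU bd (C.map c') x) p := by
      funext x
      exact (clamp_eventually p hρ (mem_ball_self hρ) (fun c' => UU bd (C.map c') x)).fderiv_eq
    rwa [h2] at h1
  refine ⟨fun x => fderiv ℝ (fun c' => UU bd (C.map c') x) p, hm1, ?_⟩
  filter_upwards [hd] with x hx1
  refine ⟨hx1.hasFDerivAt, fun v => ?_⟩
  have hnn : 0 ≤ ‖x‖ ^ 2 - UU bd (C.map p) x ^ 2 := sub_nonneg.2 (hle _ _)
  have hbd := deriv_bound hx1 v (A := C.G p) (s := √(‖x‖ ^ 2 - UU bd (C.map p) x ^ 2))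
    (K := ‖x‖) (Real.sqrt_nonneg _) (norm_nonneg _) (by
      intro ε hε
      obtain ⟨r, hr, hrU, h⟩ := hloc p hpU ε hε
      refine ⟨r, hr, fun y hy => ⟨dist (C.map y) (C.map p), dist_nonneg,
        h y hy p (mem_ball_self hr), hsec _ _ _⟩⟩)
  have h2 := pow_le_pow_left₀ (abs_nonneg _) hbd 2
  rw [sq_abs, mul_pow, Real.sq_sqrt hnn, gnorm_sq (C.pos_G p hpU)] at h2
  exact h2

end Pool.Agent.W753.FV.BC
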