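import Pool.Agent.W716.FV.StmA

/-!
# [FV-XI] the identities for `X`
-/

set_option autoImplicit false

open MeasureTheory

namespace Pool.Agent.W753.FV.XI

open Pool.Agent.W716.FV

variable {n : ℕ}

lemma continuous_xi (η : E n) : Continuous (xi η) := by
  unfold xi
  fun_prop

lemma inner_gr (u : E n → ℝ) (x v : E n) : (inner ℝ (gr u x) v : ℝ) = fderiv ℝ u x v := by
  unfold gr
  rw [InnerProductSpace.toDual_symm_apply]

lemma good_continuous {R : ℝ} {u : E n → ℝ} (hR : 0 ≤ R) (hu : Good R u) : Continuous u := by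
  have h : LipschitzWith (Real.toNNReal R) u := by
    refine LipschitzWith.of_dist_le_mul fun x y => ?_
    rw [Real.dist_eq, dist_eq_norm, Real.coe_toNNReal R hR]
    exact hu.lip x y
  exact h.continuous

theorem main (hKS : KappaStein) (hKM : KappaMoments) (hGM : GaussMoments) (hGI : GaussIBP)
    (hPM : PMoments) (hGF : GoodFacts) : XIdent := by
  intro n R u hR hu η
  obtain ⟨hgr, hub, hmeas, -, -, hdiff⟩ := hGF n R u hR hu
  obtain ⟨hP, hint, -, hk1, hk2, -, -, -, -⟩ := hPM n
  have hprob := (hGM n).1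
  have hnu := hKM.1
  have hdiffη := hdiff η
  have hcu := good_continuous hR hu
  have hcx := continuous_xi η
  have hmg : Measurable fun w : E n × ℝ => gr u (xi η w) := hmeas.comp hcx.measurable
  have hi1 : Integrable (fun _ : E n × ℝ => (1 : ℝ)) (P n) := integrable_const 1
  have hi2 : Integrable (fun w : E n × ℝ => w.2 ^ 2) (P n) := by
    have := hint 2 0 (by norm_num)
    simpa using this
  have hi12 : Integrable (fun w : E n × ℝ => 1 + w.2 ^ 2) (P n) := hi1.add hi2
  -- bounds
  have hXb : ∀ w, |(inner ℝ (gr u (xi η w)) η : ℝ)| ≤ R * ‖η‖ := fun w =>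
    (abs_real_inner_le_norm _ _).trans (mul_le_mul_of_nonneg_right (hgr _) (norm_nonneg _))
  have hmi : Measurable fun w : E n × ℝ => (inner ℝ (gr u (xi η w)) η : ℝ) :=
    hmg.inner measurable_const
  have hgi : Integrable (fun w : E n × ℝ => gr u (xi η w)) (P n) := by
    refine (integrable_const R).mono' hmg.aestronglyMeasurable (Filter.Eventually.of_forall ?_)
    intro w
    exact hgr _
  have hii : Integrable (fun w : E n × ℝ => (inner ℝ (gr u (xi η w)) η : ℝ)) (P n) := by
    refine (integrable_const (R * ‖η‖)).mono' hmi.aestronglyMeasurable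
      (Filter.Eventually.of_forall ?_)
    intro w
    rw [Real.norm_eq_abs]
    exact hXb w
  have hii2 : Integrable (fun w : E n × ℝ => (1 + w.2 ^ 2) *
      (inner ℝ (gr u (xi η w)) η : ℝ)) (P n) := by
    refine (hi12.mul_const (R * ‖η‖)).mono' ?_ (Filter.Eventually.of_forall ?_)
    · refine (Measurable.mul ?_ hmi).aestronglyMeasurable
      fun_prop
    · intro w
      rw [Real.norm_eq_abs, abs_mul, abs_of_nonneg (by positivity)]
      exact mul_le_mul_of_nonneg_left (hXb w) (by positivity)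
  -- the integrand `u(xi) g`
  have hug : Integrable (fun w : E n × ℝ => u (xi η w) • w.1) (P n) := by
    have h1 : Integrable (fun w : E n × ℝ => R * ‖w.1‖ ^ 2 + R * ‖η‖ * (|w.2| * ‖w.1‖)) (P n) := by
      have e1 := hint 0 2 (by norm_num)
      have e2 := hint 1 1 (by norm_num)
      simp only [pow_zero, one_mul, pow_one] at e1 e2
      exact (e1.const_mul R).add (e2.const_mul (R * ‖η‖))
    refine h1.mono' ?_ (Filter.Eventually.of_forall ?_)
    · exact ((hcu.comp hcx).smul continuous_fst).aestronglyMeasurable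
    · intro w
      rw [norm_smul, Real.norm_eq_abs]
      have e1 : ‖xi η w‖ ≤ ‖w.1‖ + |w.2| * ‖η‖ := by
        unfold xi
        refine (norm_add_le _ _).trans ?_
        rw [norm_smul, Real.norm_eq_abs]
      have e2 : |u (xi η w)| ≤ R * (‖w.1‖ + |w.2| * ‖η‖) :=
        (hub _).trans (mul_le_mul_of_nonneg_left e1 hR)
      calc |u (xi η w)| * ‖w.1‖ ≤ (R * (‖w.1‖ + |w.2| * ‖η‖)) * ‖w.1‖ :=
            mul_le_mul_of_nonneg_right e2 (norm_nonneg _)
        _ = R * ‖w.1‖ ^ 2 + R * ‖η‖ * (|w.2| * ‖w.1‖) := by ring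
  -- the integrand `κ u(xi)`
  have hku : Integrable (fun w : E n × ℝ => w.2 * u (xi η w)) (P n) := by
    have h1 : Integrable (fun w : E n × ℝ => R * (|w.2| * ‖w.1‖) + R * ‖η‖ * w.2 ^ 2) (P n) := by
      have e2 := hint 1 1 (by norm_num)
      simp only [pow_one] at e2
      exact (e2.const_mul R).add (hi2.const_mul (R * ‖η‖))
    refine h1.mono' ?_ (Filter.Eventually.of_forall ?_)
    · exact (continuous_snd.mul (hcu.comp hcx)).aestronglyMeasurable
    · intro w
      rw [Real.norm_eq_abs, abs_mul]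
      have e1 : ‖xi η w‖ ≤ ‖w.1‖ + |w.2| * ‖η‖ := by
        unfold xi
        refine (norm_add_le _ _).trans ?_
        rw [norm_smul, Real.norm_eq_abs]
      have e2 : |u (xi η w)| ≤ R * (‖w.1‖ + |w.2| * ‖η‖) :=
        (hub _).trans (mul_le_mul_of_nonneg_left e1 hR)
      calc |w.2| * |u (xi η w)| ≤ |w.2| * (R * (‖w.1‖ + |w.2| * ‖η‖)) :=
            mul_le_mul_of_nonneg_left e2 (abs_nonneg _)
        _ = R * (|w.2| * ‖w.1‖) + R * ‖η‖ * |w.2| ^ 2 := by ring
        _ = R * (|w.2| * ‖w.1‖) + R * ‖η‖ * w.2 ^ 2 := by rw [sq_abs]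
  -- (3)
  have h3 : ∫ w, gr u (xi η w) ∂(P n) = TT u η + η := by
    unfold TT
    rw [sub_add_cancel]
    refine ext_inner_left ℝ fun v => ?_
    rw [← integral_inner hgi v, ← integral_inner hug v]
    have hgiv : Integrable (fun w : E n × ℝ => (inner ℝ v (gr u (xi η w)) : ℝ)) (P n) :=
      hgi.const_inner v
    have hugv : Integrable (fun w : E n × ℝ => (inner ℝ v (u (xi η w) • w.1) : ℝ)) (P n) :=
      hug.const_inner v
    unfold P at hgiv hugv ⊢
    rw [integral_prod_symm _ hgiv, integral_prod_symm _ hugv]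
    congr 1
    funext κ
    have hL : ∀ x y : E n, |u (x + κ • η) - u (y + κ • η)| ≤ R * ‖x - y‖ := by
      intro x y
      have := hu.lip (x + κ • η) (y + κ • η)
      rwa [add_sub_add_right_eq_sub] at this
    have := hGI n (fun x => u (x + κ • η)) R hL v
    have e1 : ∀ x : E n, (inner ℝ v (gr u (xi η (x, κ))) : ℝ) =
        fderiv ℝ (fun x => u (x + κ • η)) x v := by
      intro x
      rw [real_inner_comm, inner_gr, fderiv_comp_add_right]
      rfl
    have e2 : ∀ x : E n, (inner ℝ v (u (xi η (x, κ)) • x) : ℝ) =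
        u (x + κ • η) * inner ℝ x v := by
      intro x
      rw [inner_smul_right, real_inner_comm]
      rfl
    simp only [e1, e2]
    exact this.symm
  -- (5)
  have h5 : ∫ w, w.2 * u (xi η w) ∂(P n) =
      1 / 4 * ∫ w, (1 + w.2 ^ 2) * (inner ℝ (gr u (xi η w)) η : ℝ) ∂(P n) := by
    have hku' := hku
    have hii2' := hii2
    have hd' := hdiffη
    unfold P at hku' hii2' hd' ⊢
    rw [integral_prod _ hku', integral_prod _ hii2', ← integral_const_mul]
    refine integral_congr_ae ?_
    have hae := Measure.ae_ae_of_ae_prod hd'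
    filter_upwards [hae] with g hg
    have hL : ∀ x y : ℝ, |u (g + x • η) - u (g + y • η)| ≤ R * ‖η‖ * |x - y| := by
      intro x y
      have := hu.lip (g + x • η) (g + y • η)
      rw [add_sub_add_left_eq_sub, ← sub_smul, norm_smul, Real.norm_eq_abs] at this
      calc _ ≤ _ := this
        _ = _ := by ring
    have hs := hKS (fun κ => u (g + κ • η)) (R * ‖η‖) hL
    show ∫ κ, κ * u (g + κ • η) ∂nu = _
    rw [hs]
    congr 1
    refine integral_congr_ae ?_
    filter_upwards [hg] with κ hκ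
    have hκ' : DifferentiableAt ℝ u (g + κ • η) := hκ
    have hd : HasDerivAt (fun κ : ℝ => u (g + κ • η)) (fderiv ℝ u (g + κ • η) η) κ := by
      have h1 : HasDerivAt (fun κ : ℝ => g + κ • η) η κ := by
        have := ((hasDerivAt_id κ).smul_const η).const_add g
        simpa using this
      exact hκ'.hasFDerivAt.comp_hasDerivAt κ h1
    show (1 + κ ^ 2) * deriv (fun κ : ℝ => u (g + κ • η)) κ =
      (1 + κ ^ 2) * (inner ℝ (gr u (g + κ • η)) η : ℝ)
    rw [hd.deriv, inner_gr]
  have hX : ∀ w, |XX R u η w| ≤ R ^ 2 + 2 * (R * ‖η‖) + ‖η‖ ^ 2 := by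
    intro w
    unfold XX
    have := abs_le.1 (hXb w)
    rw [abs_le]
    constructor <;> nlinarith [this.1, this.2, sq_nonneg R, sq_nonneg ‖η‖]
  have hXsplit : ∀ w : E n × ℝ, (1 + w.2 ^ 2) * XX R u η w =
      (R ^ 2 + ‖η‖ ^ 2) * (1 + w.2 ^ 2) -
        2 * ((1 + w.2 ^ 2) * (inner ℝ (gr u (xi η w)) η : ℝ)) := by
    intro w
    unfold XX
    ring
  refine ⟨fun w => ?_, ?_, h3, ?_, ?_⟩
  · unfold XX
    rw [norm_sub_sq_real]
    have := pow_le_pow_left₀ (norm_nonneg _) (hgr (xi η w)) 2
    linarith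
  · simp only [hXsplit]
    exact (hi12.const_mul _).sub (hii2.const_mul 2)
  · have e1 : ∫ w, XX R u η w ∂(P n) =
        R ^ 2 + ‖η‖ ^ 2 - 2 * ∫ w, (inner ℝ (gr u (xi η w)) η : ℝ) ∂(P n) := by
      have e0 : ∀ w : E n × ℝ, XX R u η w =
          (R ^ 2 + ‖η‖ ^ 2) - 2 * (inner ℝ (gr u (xi η w)) η : ℝ) := by
        intro w
        unfold XX
        ring
      simp only [e0]
      rw [integral_sub (integrable_const _) (hii.const_mul 2), integral_const_mul]
      simp
    have e2 : ∫ w, (inner ℝ (gr u (xi η w)) η : ℝ) ∂(P n) = inner ℝ (TT u η + η) η := by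
      rw [← h3, real_inner_comm, ← integral_inner hgi η]
      congr 1
      funext w
      rw [real_inner_comm]
    rw [e1, e2]
    unfold EX
    rw [inner_add_left, real_inner_self_eq_norm_sq]
    ring
  · simp only [hXsplit]
    rw [integral_sub (hi12.const_mul _) (hii2.const_mul 2), integral_const_mul, integral_const_mul,
      integral_add hi1 hi2, hk2]
    unfold SS
    rw [h5]
    simp only [integral_const, probReal_univ, smul_eq_mul]
    ring

end Pool.Agent.W753.FV.XI
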